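import Pool.Agent.Lib.MP_33b3f9_ag.M5.LIso

/-!
The symplectic Lie algebra is simple; traces of the adjoint action.
-/

set_option autoImplicit false

noncomputable section

namespace MG.Gs

open Matrix M5 Pool.Agent.M4.Mx Pool.Agent.Lib.MP_33b3f9_ag

variable {ν : Type} [Fintype ν] [DecidableEq ν] {k : Type} [Field k] [CharZero k]
  {E : Matrix ν ν k}

omit [DecidableEq ν] [CharZero k] in
theorem sp_br {X Y : Matrix ν ν k} (hX : Sp E X) (hY : Sp E Y) : Sp E (X * Y - Y * X) := by
  have h1 : Xᵀ * E = -(E * X) := eq_neg_of_add_eq_zero_left hX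
  have h2 : Yᵀ * E = -(E * Y) := eq_neg_of_add_eq_zero_left hY
  rw [Sp, transpose_sub, transpose_mul, transpose_mul, sub_mul, mul_assoc, mul_assoc, h1, h2,
    mul_neg, mul_neg, ← mul_assoc, ← mul_assoc, h1, h2]
  noncomm_ring

theorem simple (hE : Eᵀ = -E) (hd : E.det ≠ 0) (I : Submodule k (Matrix ν ν k))
    (hI : ∀ Z, Sp E Z → ∀ Y ∈ I, Z * Y - Y * Z ∈ I) {X : Matrix ν ν k} (hX : X ∈ I) (hs : Sp E X)
    (h0 : X ≠ 0) {Z : Matrix ν ν k} (hZ : Sp E Z) : Z ∈ I := by
  have hI' : ∀ Z, Sp E Z → ∀ Y ∈ I, Y * Z - Z * Y ∈ I := fun Z hZ Y hY => by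
    have := neg_mem (hI Z hZ Y hY)
    rwa [neg_sub] at this
  obtain ⟨u, hu⟩ : ∃ u, u ⬝ᵥ E *ᵥ (X *ᵥ u) ≠ 0 := by
    by_contra h
    push Not at h
    refine h0 (toLin'.injective (LinearMap.ext fun w => ?_))
    rw [map_zero, LinearMap.zero_apply, toLin'_apply]
    by_contra h1
    obtain ⟨u, hu⟩ := trans_nondeg hd h1
    have h2 := h (u + w)
    have h3 := sp_form hs u w
    rw [trans_skew hE] at h3
    rw [mulVec_add, mulVec_add, add_dotProduct, dotProduct_add, dotProduct_add, h u, h w] at h2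
    exact hu (by linear_combination (1 / 2 : k) * h2 + (1 / 2 : k) * h3)
  have hu0 : u ≠ 0 := fun e => hu (by rw [e, zero_dotProduct])
  have h1 : sqm E u ∈ I := by
    have a1 := hI' _ (sqm_sp hE u) _ hX
    rw [lie_sqm hs] at a1
    have a2 := hI' _ (sqm_sp hE u) _ a1
    rw [lie_sqm (dotm_sp hE _ _), dotm_mulVec, trans_alt hE, zero_smul, zero_add, dotm_smul_left,
      dotm_self, smul_smul] at a2
    exact (I.smul_mem_iff (mul_ne_zero hu two_ne_zero)).1 a2
  have hall : ∀ P : (ν → k) → Prop, (∀ x y, P (x + y) → P y → P x) →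
      (∀ x, u ⬝ᵥ E *ᵥ x ≠ 0 → P x) → ∀ x, P x := fun P p1 p2 x => by
    by_cases hx : u ⬝ᵥ E *ᵥ x = 0
    · exact p1 x (X *ᵥ u) (p2 _ (by rwa [mulVec_add, dotProduct_add, hx, zero_add])) (p2 _ hu)
    · exact p2 x hx
  have h2 : ∀ w, dotm E w u ∈ I := by
    refine hall _ (fun x y a b => ?_) fun x hx => ?_
    · rw [dotm_add_left] at a
      exact (I.add_mem_iff_left b).1 a
    · have a1 := hI _ (sqm_sp hE x) _ h1
      rw [lie_sqm (sqm_sp hE x), sqm_mulVec, dotm_smul_left] at a1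
      exact (I.smul_mem_iff hx).1 a1
  have h3 : ∀ w x, dotm E x w ∈ I := fun w => by
    refine hall _ (fun x y a b => ?_) fun x hx => ?_
    · rw [dotm_add_left] at a
      exact (I.add_mem_iff_left b).1 a
    · have a1 := hI _ (sqm_sp hE x) _ (h2 w)
      rw [lie_dotm (sqm_sp hE x), I.add_mem_iff_right (h2 _), sqm_mulVec, dotm_comm,
        dotm_smul_left] at a1
      exact (I.smul_mem_iff hx).1 a1
  refine Full.sp hE hd (fun w => ?_) hZ
  have := h3 w w
  rw [dotm_self] at this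
  exact (I.smul_mem_iff two_ne_zero).1 this

theorem exists_br [Nonempty ν] (hE : Eᵀ = -E) (hd : E.det ≠ 0) :
    ∃ X Y, Sp E X ∧ Sp E Y ∧ X * Y - Y * X ≠ 0 := by
  obtain ⟨i⟩ := ‹Nonempty ν›
  have h0 : (Pi.single i 1 : ν → k) ≠ 0 := by simp
  obtain ⟨x, hx⟩ := trans_nondeg hd h0
  refine ⟨dotm E x (Pi.single i 1), sqm E x, dotm_sp hE _ _, sqm_sp hE _, fun h => ?_⟩
  rw [lie_sqm (dotm_sp hE _ _), dotm_mulVec, trans_alt hE, zero_smul, add_zero, dotm_smul_left,
    dotm_self, smul_smul] at h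
  have h1 := congrArg (fun A => (A *ᵥ Pi.single i 1) ⬝ᵥ E *ᵥ Pi.single i 1) h
  simp only [smul_mulVec, sqm_mulVec, smul_dotProduct, zero_mulVec, zero_dotProduct,
    smul_eq_mul] at h1
  rw [trans_skew hE (Pi.single i 1) x] at h1
  exact mul_ne_zero (mul_ne_zero hx two_ne_zero) (mul_ne_zero (neg_ne_zero.2 hx) hx) h1

/-- The adjoint. -/
def st (E : Matrix ν ν k) : Module.End k (Matrix ν ν k) where
  toFun Y := E⁻¹ * Yᵀ * E
  map_add' X Y := by rw [transpose_add, mul_add, add_mul]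
  map_smul' c X := by rw [transpose_smul, mul_smul_comm, smul_mul_assoc, RingHom.id_apply]

/-- The projection to the symplectic Lie algebra. -/
def pj (E : Matrix ν ν k) : Module.End k (Matrix ν ν k) := (2 : k)⁻¹ • (1 - st E)

/-- The adjoint action. -/
def ad (X : Matrix ν ν k) : Module.End k (Matrix ν ν k) :=
  LinearMap.mulLeft k X + LinearMap.mulRight k (-X)

omit [CharZero k] in
theorem ad_apply (X Y : Matrix ν ν k) : ad X Y = X * Y - Y * X := by
  simp [ad, sub_eq_add_neg]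

omit [CharZero k] in
theorem st_apply (Y : Matrix ν ν k) : st E Y = E⁻¹ * Yᵀ * E := rfl

omit [CharZero k] in
theorem st_sp (hd : E.det ≠ 0) {X : Matrix ν ν k} (hX : Sp E X) : st E X = -X := by
  rw [st_apply, mul_assoc, eq_neg_of_add_eq_zero_left hX, mul_neg, ← mul_assoc,
    nonsing_inv_mul _ hd.isUnit, one_mul]

theorem pj_sp (hd : E.det ≠ 0) {X : Matrix ν ν k} (hX : Sp E X) : pj E X = X := by
  change (2 : k)⁻¹ • (X - st E X) = X
  rw [st_sp hd hX]
  module

omit [CharZero k] in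
theorem sp_pj (hE : Eᵀ = -E) (hd : E.det ≠ 0) (Y : Matrix ν ν k) : Sp E (pj E Y) := by
  change ((2 : k)⁻¹ • (Y - E⁻¹ * Yᵀ * E))ᵀ * E + E * ((2 : k)⁻¹ • (Y - E⁻¹ * Yᵀ * E)) = 0
  have h1 : (E⁻¹)ᵀ * E = -1 := by
    have := congrArg transpose (mul_nonsing_inv E hd.isUnit)
    rw [transpose_mul, transpose_one, hE, mul_neg] at this
    rw [← this, neg_neg]
  rw [transpose_smul, smul_mul_assoc, mul_smul_comm, ← smul_add, transpose_sub, transpose_mul,
    transpose_mul, transpose_transpose, hE, sub_mul, mul_sub, mul_assoc, mul_assoc, h1,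
    ← mul_assoc E, ← mul_assoc E, mul_nonsing_inv _ hd.isUnit]
  simp

omit [CharZero k] in
theorem st_pow (hd : E.det ≠ 0) {X : Matrix ν ν k} (hX : Sp E X) (m : ℕ) :
    st E ((-X) ^ m) = X ^ m := by
  induction m with
  | zero => rw [pow_zero, pow_zero, st_apply, transpose_one, mul_one, nonsing_inv_mul _ hd.isUnit]
  | succ m ih =>
    have h1 := st_sp hd hX
    rw [st_apply] at h1 ih ⊢
    rw [pow_succ, transpose_mul, pow_succ', ← ih, transpose_neg]
    have h2 : X = E⁻¹ * -Xᵀ * E := by rw [mul_neg, neg_mul, h1, neg_neg]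
    conv_rhs => enter [1]; rw [h2]
    simp only [mul_assoc]
    rw [← mul_assoc E, mul_nonsing_inv _ hd.isUnit, one_mul]

omit [CharZero k] in
theorem trace_end (f : Module.End k (Matrix ν ν k)) :
    LinearMap.trace k _ f = ∑ i, ∑ j, f (single i j 1) i j := by
  rw [LinearMap.trace_eq_matrix_trace k (stdBasis k ν ν), Matrix.trace, Fintype.sum_prod_type]
  refine Finset.sum_congr rfl fun i _ => Finset.sum_congr rfl fun j _ => ?_
  rw [diag_apply, LinearMap.toMatrix_apply, stdBasis_eq_single]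
  simp [stdBasis]

omit [CharZero k] in
theorem trace_lr (A B : Matrix ν ν k) :
    LinearMap.trace k _ (LinearMap.mulLeft k A * LinearMap.mulRight k B) = A.trace * B.trace := by
  rw [trace_end, Matrix.trace, Matrix.trace, Finset.sum_mul_sum]
  refine Finset.sum_congr rfl fun i _ => Finset.sum_congr rfl fun j _ => ?_
  simp [mul_apply, single_apply, ite_and]

omit [CharZero k] in
theorem trace_lrs (hE : Eᵀ = -E) (A B : Matrix ν ν k) :
    LinearMap.trace k _ (LinearMap.mulLeft k A * LinearMap.mulRight k B * st E) =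
      -(A * st E B).trace := by
  have h1 : -(A * st E B) = A * E⁻¹ * (E * B)ᵀ := by
    rw [st_apply, transpose_mul, hE]
    noncomm_ring
  rw [trace_end, ← trace_neg, h1, Matrix.trace]
  refine Finset.sum_congr rfl fun i _ => ?_
  rw [diag_apply, mul_apply]
  refine Finset.sum_congr rfl fun j _ => ?_
  change (A * (E⁻¹ * (single i j (1 : k))ᵀ * E * B) : Matrix ν ν k) i j = _
  rw [transpose_single, mul_assoc _ E B, ← mul_assoc A, ← mul_assoc A, transpose_apply]
  generalize A * E⁻¹ = C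
  generalize E * B = D
  simp [mul_apply, single_apply, ite_and]

theorem trace_ad (hE : Eᵀ = -E) (hd : E.det ≠ 0) {X : Matrix ν ν k} (hX : Sp E X) (n : ℕ) :
    2 * LinearMap.trace k _ (ad X ^ n * pj E) =
      ∑ m ∈ Finset.range (n + 1), (X ^ m).trace * (X ^ (n - m)).trace * n.choose m +
        2 ^ n * (X ^ n).trace := by
  have hc : Commute (LinearMap.mulLeft k X) (LinearMap.mulRight k (-X)) :=
    LinearMap.commute_mulLeft_right _ _
  have h1 : ∀ m, ((-X) ^ m).trace = (X ^ m).trace := fun m => by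
    rw [← st_pow hd hX, st_apply, trace_mul_comm, ← mul_assoc, mul_nonsing_inv _ hd.isUnit,
      one_mul, trace_transpose]
  have h2 : (2 : k) ^ n = ∑ m ∈ Finset.range (n + 1), (n.choose m : k) := by
    exact_mod_cast (Nat.sum_range_choose n).symm
  rw [pj, mul_smul_comm, map_smul, smul_eq_mul, mul_inv_cancel_left₀ two_ne_zero, ad, hc.add_pow,
    Finset.sum_mul, map_sum, h2, Finset.sum_mul, ← Finset.sum_add_distrib]
  refine Finset.sum_congr rfl fun m hm => ?_
  rw [LinearMap.pow_mulLeft, LinearMap.pow_mulRight, ← nsmul_eq_mul', smul_mul_assoc, map_nsmul,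
    mul_sub, mul_one, map_sub, trace_lr, trace_lrs hE, st_pow hd hX, ← pow_add, h1,
    Nat.add_sub_cancel' (Nat.lt_succ_iff.1 (Finset.mem_range.1 hm)), nsmul_eq_mul]
  ring

theorem trace_pow_eq [Nonempty ν] (hE : Eᵀ = -E) (hd : E.det ≠ 0) {X Y : Matrix ν ν k}
    (hX : Sp E X) (hY : Sp E Y) (h : ∀ n, LinearMap.trace k _ (ad X ^ n * pj E) =
      LinearMap.trace k _ (ad Y ^ n * pj E)) (n : ℕ) : (X ^ n).trace = (Y ^ n).trace := by
  induction n using Nat.strong_induction_on with
  | _ n ih =>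
    rcases n with _ | n
    · simp
    have h1 := trace_ad hE hd hX (n + 1)
    rw [h, trace_ad hE hd hY, Finset.sum_range_succ, Finset.sum_range_succ',
      Finset.sum_range_succ _ (n + 1), Finset.sum_range_succ' _ n,
      Finset.sum_congr rfl (g := fun m => (Y ^ (m + 1)).trace * (Y ^ (n + 1 - (m + 1))).trace *
        ((n + 1).choose (m + 1) : k)) (s₁ := Finset.range n) (f := fun m => (X ^ (m + 1)).trace *
        (X ^ (n + 1 - (m + 1))).trace * ((n + 1).choose (m + 1) : k)) fun m hm => by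
          have := Finset.mem_range.1 hm
          rw [ih _ (by omega), ih _ (by omega)]] at h1
    simp only [pow_zero, trace_one, Nat.sub_zero, Nat.sub_self, Nat.choose_zero_right,
      Nat.choose_self, Nat.cast_one, mul_one] at h1
    have h2 : ((2 * Fintype.card ν + 2 ^ (n + 1) : ℕ) : k) ≠ 0 := Nat.cast_ne_zero.2 (by positivity)
    refine mul_left_cancel₀ h2 ?_
    push_cast
    linear_combination -h1

end MG.Gs
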