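import Pool.Agent.Lib.MP_33b3f9_ag.MG.Gs.A

/-!
Subdirect products of symplectic Lie algebras.
-/

set_option autoImplicit false

noncomputable section

namespace MG.Gs

open Matrix M5 Pool.Agent.M4.Mx Pool.Agent.Lib.MP_33b3f9_ag

variable {ν : Type} [Fintype ν] [DecidableEq ν] {k : Type} [Field k] {σ : Type}

/-- A subalgebra of a product of symplectic Lie algebras that maps onto each factor. -/
structure Sub (E : Matrix ν ν k) (g : Submodule k (σ → Matrix ν ν k)) : Prop where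
  skew : Eᵀ = -E
  det : E.det ≠ 0
  cl : ∀ X ∈ g, ∀ Y ∈ g, X * Y - Y * X ∈ g
  sp : ∀ X ∈ g, ∀ s, Sp E (X s)
  on : ∀ s Y, Sp E Y → ∃ X ∈ g, X s = Y

/-- The factor `t` determines the factor `s`. -/
def Lk (g : Submodule k (σ → Matrix ν ν k)) (s t : σ) : Prop := ∀ X ∈ g, X t = 0 → X s = 0

variable [CharZero k] {E : Matrix ν ν k} {g : Submodule k (σ → Matrix ν ν k)} {s t : σ}

omit [CharZero k] in
theorem Sub.sec (H : Sub E g) (s : σ) : ∃ q : Matrix ν ν k →ₗ[k] σ → Matrix ν ν k,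
    ∀ Y, q Y ∈ g ∧ q Y s = pj E Y := by
  choose f hf using fun i : ν × ν => H.on s _ (sp_pj H.skew H.det (stdBasis k ν ν i))
  refine ⟨(stdBasis k ν ν).constr k f, fun Y => ⟨?_, ?_⟩⟩
  · rw [Module.Basis.constr_apply_fintype]
    exact g.sum_mem fun i _ => g.smul_mem _ (hf i).1
  · refine LinearMap.congr_fun ((stdBasis k ν ν).ext (f₁ := (LinearMap.proj s).comp
      ((stdBasis k ν ν).constr k f)) (f₂ := pj E) fun i => ?_) Y
    rw [LinearMap.comp_apply, Module.Basis.constr_basis]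
    exact (hf i).2

theorem Sub.symm (H : Sub E g) (h : Lk g s t) : Lk g t s := by
  obtain ⟨q, hq⟩ := H.sec t
  let β : Module.End k (Matrix ν ν k) := (LinearMap.proj s).comp q + (1 - pj E)
  have h1 : ∀ Z ∈ g, β (Z t) = Z s := fun Z hZ => by
    have a1 := pj_sp H.det (H.sp Z hZ t)
    have a2 := h _ (g.sub_mem (hq (Z t)).1 hZ) (by rw [Pi.sub_apply, (hq _).2, a1, sub_self])
    change q (Z t) s + (Z t - pj E (Z t)) = Z s
    rw [a1, sub_self, add_zero]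
    exact sub_eq_zero.1 a2
  have h2 : Function.Surjective β := fun Y => by
    obtain ⟨Z, hZ, e⟩ := H.on s _ (sp_pj H.skew H.det Y)
    have a1 : pj E (Y - pj E Y) = 0 := by
      rw [map_sub, pj_sp H.det (sp_pj H.skew H.det Y), sub_self]
    refine ⟨Z t + (Y - pj E Y), ?_⟩
    rw [map_add, h1 Z hZ, e]
    change _ + (q _ s + ((Y - pj E Y) - pj E _)) = Y
    rw [h _ (hq _).1 ((hq _).2.trans a1), a1]
    abel
  intro X hX h0
  exact LinearMap.injective_iff_surjective.2 h2 (by rw [h1 X hX, h0, map_zero])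

theorem Sub.trace [Nonempty ν] (H : Sub E g) (h : Lk g s t) {X : σ → Matrix ν ν k} (hX : X ∈ g)
    (n : ℕ) : (X s ^ n).trace = (X t ^ n).trace := by
  have key : ∀ s t, Lk g s t → ∃ α : Module.End k (Matrix ν ν k),
      (∀ Z ∈ g, α (Z t) = Z s) ∧ ∀ Y, ∃ Z ∈ g, Z t = pj E Y ∧ Z s = α Y := fun s t h => by
    obtain ⟨q, hq⟩ := H.sec t
    refine ⟨(LinearMap.proj s).comp q, fun Z hZ => sub_eq_zero.1 (h _ (g.sub_mem (hq (Z t)).1 hZ)
      (by rw [Pi.sub_apply, (hq _).2, pj_sp H.det (H.sp Z hZ t), sub_self])),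
      fun Y => ⟨q Y, (hq Y).1, (hq Y).2, rfl⟩⟩
  obtain ⟨α, a1, a2⟩ := key s t h
  obtain ⟨β, b1, b2⟩ := key t s (H.symm h)
  refine trace_pow_eq H.skew H.det (H.sp X hX s) (H.sp X hX t) (fun n => ?_) n
  have h1 : ∀ Z ∈ g, ∃ Z' ∈ g, ∀ u, Z' u = (ad (X u) ^ n) (Z u) := fun Z hZ => by
    induction n with
    | zero => exact ⟨Z, hZ, fun _ => rfl⟩
    | succ n ih =>
      obtain ⟨Z', h2, h3⟩ := ih
      exact ⟨_, H.cl X hX Z' h2, fun u => by
        rw [pow_succ', Module.End.mul_apply, ← h3, ad_apply]; rfl⟩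
  have e1 : ad (X s) ^ n * pj E = ad (X s) ^ n * α * β := LinearMap.ext fun Y => by
    obtain ⟨Z, hZ, c1, c2⟩ := b2 Y
    change (ad (X s) ^ n) (pj E Y) = (ad (X s) ^ n) (α (β Y))
    rw [← c2, a1 Z hZ, c1]
  have e2 : ad (X t) ^ n * pj E = β * (ad (X s) ^ n * α) := LinearMap.ext fun Y => by
    obtain ⟨Z, hZ, c1, c2⟩ := a2 Y
    obtain ⟨Z', h2, h3⟩ := h1 Z hZ
    change (ad (X t) ^ n) (pj E Y) = β ((ad (X s) ^ n) (α Y))
    rw [← c2, ← c1, ← h3, ← h3, b1 Z' h2]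
  rw [e1, e2, LinearMap.trace_mul_comm]

theorem Sub.ker (H : Sub E g) (T : Set σ) (s : σ) (h : ∃ X ∈ g, X s ≠ 0 ∧ ∀ t ∈ T, X t = 0)
    {Y : Matrix ν ν k} (hY : Sp E Y) : ∃ X ∈ g, X s = Y ∧ ∀ t ∈ T, X t = 0 := by
  obtain ⟨X, hX, h0, h1⟩ := h
  let I : Submodule k (Matrix ν ν k) :=
    (g ⊓ Submodule.pi T fun _ => ⊥).map (LinearMap.proj s)
  have := simple H.skew H.det I (by
    rintro Z hZ _ ⟨W, ⟨w1, w2⟩, rfl⟩
    obtain ⟨Z, hZ', rfl⟩ := H.on s Z hZ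
    refine ⟨_, ⟨H.cl Z hZ' W w1, fun t ht => ?_⟩, rfl⟩
    have w3 : W t = 0 := w2 t ht
    simp [w3]) ⟨X, ⟨hX, h1⟩, rfl⟩ (H.sp X hX s) h0 hY
  obtain ⟨W, ⟨w1, w2⟩, e⟩ := this
  exact ⟨W, w1, e, w2⟩

/-- The lemma of Goursat. -/
theorem Sub.gours [Nonempty ν] [Finite σ] (H : Sub E g) (s : σ) {Y : Matrix ν ν k} (hY : Sp E Y) :
    ∃ X ∈ g, X s = Y ∧ ∀ t, ¬ Lk g s t → X t = 0 := by
  have key : ∀ T : Set σ, T.Finite → (∀ t ∈ T, ¬ Lk g s t) → ∀ Y, Sp E Y →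
      ∃ X ∈ g, X s = Y ∧ ∀ t ∈ T, X t = 0 := fun T hT => by
    induction T, hT using Set.Finite.induction_on with
    | empty => exact fun _ Y hY => (H.on s Y hY).imp fun X h => ⟨h.1, h.2, by simp⟩
    | @insert t T _ _ ih =>
      intro h Y hY
      obtain ⟨A, B, hA, hB, h0⟩ := exists_br H.skew H.det
      obtain ⟨X, x1, x2, x3⟩ := ih (fun u hu => h u (Set.mem_insert_of_mem _ hu)) A hA
      obtain ⟨Z, z1, z2, z3⟩ := H.ker {t} s (by
        have := h t (Set.mem_insert _ _)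
        simp only [Lk, not_forall] at this
        obtain ⟨W, w1, w2, w3⟩ := this
        exact ⟨W, w1, w3, fun _ e => e ▸ w2⟩) hB
      refine H.ker _ s ⟨_, H.cl X x1 Z z1, by rwa [← x2, ← z2] at h0, ?_⟩ hY
      rintro u (rfl | hu)
      · simp [z3 u rfl]
      · simp [x3 u hu]
  exact key {t | ¬ Lk g s t} (Set.toFinite _) (fun _ h => h) Y hY

/-- The elements of `g` whose components are symplectic. -/
def spPart (E : Matrix ν ν k) (g : Submodule k (σ → Matrix ν ν k)) :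
    Submodule k (σ → Matrix ν ν k) where
  carrier := {X | X ∈ g ∧ ∀ s, Sp E (X s)}
  zero_mem' := ⟨g.zero_mem, fun _ => by simp [Sp]⟩
  add_mem' := fun {a b} ha hb => ⟨g.add_mem ha.1 hb.1, fun s => by
    rw [Sp, Pi.add_apply, transpose_add, add_mul, mul_add, add_add_add_comm, ha.2 s, hb.2 s,
      add_zero]⟩
  smul_mem' := fun c a ha => ⟨g.smul_mem c ha.1, fun s => by
    rw [Sp, Pi.smul_apply, transpose_smul, smul_mul_assoc, mul_smul_comm, ← smul_add, ha.2 s,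
      smul_zero]⟩

omit [CharZero k] in
theorem br_sub (X Y : Matrix ν ν k) (c d : k) :
    (X - c • 1) * (Y - d • 1) - (Y - d • 1) * (X - c • 1) = X * Y - Y * X := by
  simp only [sub_mul, mul_sub, smul_mul_assoc, mul_smul_comm, one_mul, mul_one]
  module

theorem sub_spPart [Nonempty ν] (hE : Eᵀ = -E) (hd : E.det ≠ 0)
    (cl : ∀ X ∈ g, ∀ Y ∈ g, X * Y - Y * X ∈ g) (gsp : ∀ X ∈ g, ∀ s, ∃ c : k, Sp E (X s - c • 1))
    (on : ∀ s Y, Sp E Y → ∃ X ∈ g, ∃ c : k, X s - c • 1 = Y) : Sub E (spPart E g) := by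
  have h1 : ∀ X ∈ g, ∀ Y ∈ g, X * Y - Y * X ∈ spPart E g := fun X hX Y hY =>
    ⟨cl X hX Y hY, fun s => by
      obtain ⟨c, hc⟩ := gsp X hX s
      obtain ⟨d, hd⟩ := gsp Y hY s
      have := sp_br hc hd
      rwa [br_sub] at this⟩
  refine ⟨hE, hd, fun X hX Y hY => h1 X hX.1 Y hY.1, fun X hX => hX.2, fun s Y hY => ?_⟩
  obtain ⟨A, B, hA, hB, h0⟩ := exists_br hE hd
  have h2 := sp_br hA hB
  obtain ⟨X, hX, c, rfl⟩ := on s A hA
  obtain ⟨Z, hZ, d, rfl⟩ := on s B hB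
  rw [br_sub] at h0 h2
  exact simple hE hd ((spPart E g).map (LinearMap.proj s)) (by
    rintro W hW _ ⟨V, hV, rfl⟩
    obtain ⟨W, hW', c, rfl⟩ := on s W hW
    refine ⟨_, h1 W hW' V hV.1, ?_⟩
    have := br_sub (W s) (V s) c 0
    rw [zero_smul, sub_zero] at this
    exact this.symm) ⟨_, h1 X hX Z hZ, rfl⟩ h2 h0 hY

omit [CharZero k] in
theorem trace_shift {X Y : Matrix ν ν k} (h : ∀ n, (X ^ n).trace = (Y ^ n).trace) (c : k) (n : ℕ) :
    ((X + c • 1) ^ n).trace = ((Y + c • 1) ^ n).trace := by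
  have h1 : ∀ X : Matrix ν ν k, Commute X (c • 1) := fun X => (Commute.one_right X).smul_right c
  rw [(h1 X).add_pow, (h1 Y).add_pow, trace_sum, trace_sum]
  refine Finset.sum_congr rfl fun m _ => ?_
  simp only [smul_pow, one_pow, mul_smul_comm, mul_one, ← nsmul_eq_mul', trace_smul, h]

/-- All blocks are full: the algebra contains the product of the symplectic Lie algebras. -/
theorem all_full [Nonempty ν] [Finite σ] [DecidableEq σ] (hE : Eᵀ = -E) (hd : E.det ≠ 0)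
    (cl : ∀ X ∈ g, ∀ Y ∈ g, X * Y - Y * X ∈ g) (gsp : ∀ X ∈ g, ∃ c : k, ∀ s, Sp E (X s - c • 1))
    (on : ∀ s Y, Sp E Y → ∃ X ∈ g, X s = Y)
    (pw : Submodule.span k {A | ∃ X ∈ g, ∃ n : ℕ, X ^ n = A} = ⊤) {Z : σ → Matrix ν ν k}
    (hZ : ∀ s, Sp E (Z s)) : Z ∈ g := by
  let g' := g ⊔ Submodule.span k {1}
  have hg : ∀ X ∈ g', ∃ Y ∈ g, ∃ c : k, X = Y + c • 1 := fun X hX => by
    obtain ⟨Y, hY, W, hW, rfl⟩ := Submodule.mem_sup.1 hX
    obtain ⟨c, rfl⟩ := Submodule.mem_span_singleton.1 hW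
    exact ⟨Y, hY, c, rfl⟩
  have cl' : ∀ X ∈ g', ∀ Y ∈ g', X * Y - Y * X ∈ g := fun X hX Y hY => by
    obtain ⟨X, hX', c, rfl⟩ := hg X hX
    obtain ⟨Y, hY', d, rfl⟩ := hg Y hY
    refine (congrArg (· ∈ g) ?_).mp (cl X hX' Y hY')
    simp only [add_mul, mul_add, smul_mul_assoc, mul_smul_comm, one_mul, mul_one]
    module
  have h1 : ∀ X ∈ g, ∀ c : k, X - c • 1 ∈ g' := fun X hX c =>
    g'.sub_mem (Submodule.mem_sup_left hX)
      (g'.smul_mem _ (Submodule.mem_sup_right (Submodule.mem_span_singleton_self _)))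
  have H : Sub E (spPart E g') := sub_spPart hE hd
    (fun X hX Y hY => Submodule.mem_sup_left (cl' X hX Y hY))
    (fun X hX s => by
      obtain ⟨X, hX', c, rfl⟩ := hg X hX
      obtain ⟨d, hd⟩ := gsp X hX'
      exact ⟨c + d, by simpa [add_smul, add_sub_add_left_eq_sub, ← sub_sub] using hd s⟩)
    fun s Y hY => (on s Y hY).imp fun X h => ⟨Submodule.mem_sup_left h.1, 0, by simp [h.2]⟩
  have h2 : ∀ s t, Lk (spPart E g') s t → s = t := fun s t h => by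
    by_contra hne
    let φ : (σ → Matrix ν ν k) →ₗ[k] k := (traceLinearMap ν k k).comp
      ((LinearMap.proj s : (σ → Matrix ν ν k) →ₗ[k] _) - LinearMap.proj t)
    have a1 : (⊤ : Submodule k (σ → Matrix ν ν k)) ≤ LinearMap.ker φ := by
      rw [← pw, Submodule.span_le]
      rintro _ ⟨X, hX, n, rfl⟩
      obtain ⟨c, hc⟩ := gsp X hX
      have := trace_shift (H.trace h (X := X - c • 1) ⟨h1 X hX c, hc⟩) c n
      change (X s ^ n - X t ^ n).trace = 0
      rw [trace_sub, sub_eq_zero]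
      simpa using this
    have a2 : φ (Pi.single s 1) = 0 := a1 trivial
    simp [φ, Pi.single_eq_of_ne (Ne.symm hne)] at a2
  have h3 : ∀ s Y, Sp E Y → (Pi.single s Y : σ → Matrix ν ν k) ∈ g' := fun s Y hY => by
    obtain ⟨X, hX, e, h0⟩ := H.gours s hY
    refine (congrArg (· ∈ g') (funext fun t => ?_)).mp hX.1
    by_cases ht : t = s
    · rw [ht, e, Pi.single_eq_same]
    · rw [Pi.single_eq_of_ne ht, h0 t fun h => ht (h2 s t h).symm]
  have h4 : ∀ s A B, Sp E A → Sp E B → (Pi.single s (A * B - B * A) : σ → Matrix ν ν k) ∈ g :=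
    fun s A B hA hB => by
      rw [Pi.single_sub, Pi.single_mul, Pi.single_mul]
      exact cl' _ (h3 s A hA) _ (h3 s B hB)
  have := Fintype.ofFinite σ
  rw [← Finset.univ_sum_single Z]
  refine g.sum_mem fun s _ => ?_
  obtain ⟨A, B, hA, hB, h0⟩ := exists_br hE hd
  refine simple hE hd (g.comap (LinearMap.single k (fun _ => Matrix ν ν k) s)) (fun W hW V hV => ?_)
    (h4 s A B hA hB) (sp_br hA hB) h0 (hZ s)
  change (Pi.single s (W * V - V * W) : σ → Matrix ν ν k) ∈ g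
  rw [Pi.single_sub, Pi.single_mul, Pi.single_mul]
  exact cl' _ (h3 s W hW) _ (Submodule.mem_sup_left hV)

end MG.Gs
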